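import Mathlib
import Pool.Agent.H12.CutC

set_option autoImplicit false

namespace Pool.Agent.Results.MP_df1ab4_co.Counter

/-- the subword of `W` with support `S` (positions are numbered from 0) -/
def subword {k : ℕ} (W : List (Fin k)) (S : Finset ℕ) : List (Fin k) :=
  (W.zipIdx.filter fun p => decide (p.2 ∈ S)).map Prod.fst

/-- the positions split into two disjoint supports whose subwords are equal -/
def IsShuffleSquare {k : ℕ} (W : List (Fin k)) : Prop :=
  ∃ S T : Finset ℕ, Disjoint S T ∧ S ∪ T = Finset.range W.length ∧ subword W S = subword W T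

/-- `W` is a concatenation of `c + 1` consecutive blocks, some reordering of which is a
shuffle square -/
def CutsWork {k : ℕ} (W : List (Fin k)) (c : ℕ) : Prop :=
  ∃ B : Fin (c + 1) → List (Fin k), W = (List.ofFn B).flatten ∧
    ∃ π : Equiv.Perm (Fin (c + 1)), IsShuffleSquare (List.ofFn fun i => B (π i)).flatten

open Pool.Agent.H12.Cut

theorem sh_of {k : ℕ} (W : List (Fin k)) (h : IsShuffleSquare W) : ∃ x, Sh W x x := by
  obtain ⟨S, T, hd, hu, he⟩ := h
  refine ⟨subword W S, ?_⟩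
  have h1 := (Sh.split (fun p : Fin k × ℕ => decide (p.2 ∈ S)) W.zipIdx).map Prod.fst
  have h2 : (W.zipIdx.filter fun p => !decide (p.2 ∈ S)) =
      W.zipIdx.filter fun p => decide (p.2 ∈ T) := by
    apply List.filter_congr
    intro p hp
    have h3 : p.2 ∈ S ∪ T := by
      rw [hu, Finset.mem_range]
      simpa using (List.mem_zipIdx hp).2.1
    rw [Finset.mem_union] at h3
    by_cases hs : p.2 ∈ S
    · have : p.2 ∉ T := Finset.disjoint_left.1 hd hs
      simp [hs, this]
    · have : p.2 ∈ T := h3.resolve_left hs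
      simp [hs, this]
  rw [h2, List.zipIdx_map_fst] at h1
  have h4 : Sh W (subword W S) (subword W T) := h1
  rwa [← he] at h4

def W0 : List (Fin 6) :=
  [0, 1, 1, 1, 0, 2, 2, 2, 1, 0, 0, 0, 0, 2, 3, 4, 4, 4, 4, 5, 3, 3, 3, 4, 5, 5, 5, 4]

def code : Fin 6 → ℕ := ![2, 3, 5, 7, 11, 13]

theorem result : ∃ W : List (Fin 6), (∀ a, Even (W.count a)) ∧ IsLeast {c | CutsWork W c} 7 := by
  refine ⟨W0, by decide, ?_, ?_⟩
  · refine ⟨![[0], [1, 1, 1], [0, 2, 2, 2], [1, 0, 0, 0, 0, 2], [3], [4, 4, 4, 4, 5, 3],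
      [3, 3, 4, 5, 5], [5, 4]], by decide,
      Equiv.swap 0 1 * Equiv.swap 2 3 * Equiv.swap 4 5 * Equiv.swap 6 7,
      {0, 2, 3, 6, 8, 9, 12, 14, 16, 18, 19, 20, 22, 26},
      {1, 4, 5, 7, 10, 11, 13, 15, 17, 21, 23, 24, 25, 27}, by decide, by decide, by decide⟩
  · rintro c ⟨B, hW, π, hs⟩
    by_contra hc
    have hg : Good (List.ofFn B) := ⟨_, Equiv.Perm.ofFn_comp_perm π B, sh_of _ hs⟩
    refine main _ ?_ ?_ (hg.map code)
    · rw [← List.map_flatten, ← hW]; decide
    · simp only [List.length_map, List.length_ofFn]; omega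

end Pool.Agent.Results.MP_df1ab4_co.Counter
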